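import Pool.Agent.N139.Th.Noneq

/-!
# The second order theta constants do not separate the points of `A_g(2,4)` for `g ≥ 6`
-/

open Complex Matrix
open scoped Real

namespace Pool.Agent.Results.MP_2bf81a_ag.ThetaMapNotInjective

/-- The Siegel upper half-space: symmetric complex matrices with positive definite imaginary
part. -/
def SiegelSpace (g : ℕ) : Set (Matrix (Fin g) (Fin g) ℂ) :=
  {τ | τ.IsSymm ∧ (τ.map Complex.im).PosDef}

/-- The theta function with characteristic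
`∑_n exp(pi i (n + ε)^t (τ (n + ε) + 2 (z + δ)))`. -/
noncomputable def theta {g : ℕ} (ε δ : Fin g → ℝ) (τ : Matrix (Fin g) (Fin g) ℂ)
    (z : Fin g → ℂ) : ℂ :=
  ∑' n : Fin g → ℤ, Complex.exp (π * I * ∑ i, ((n i : ℂ) + (ε i : ℂ)) *
    ((∑ j, τ i j * ((n j : ℂ) + (ε j : ℂ))) + 2 * (z i + (δ i : ℂ))))

/-- The vector of the `2^g` second order theta constants
`Θ[ε](τ) = θ[ε; 0](2 τ, 0)`, `ε ∈ (1/2) ℤ^g / ℤ^g`, written `ε = e / 2` with `e ∈ {0, 1}^g`. -/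
noncomputable def secondOrder {g : ℕ} (τ : Matrix (Fin g) (Fin g) ℂ) : (Fin g → Fin 2) → ℂ :=
  fun e => theta (fun i => ((e i).val : ℝ) / 2) 0 ((2 : ℂ) • τ) 0

/-- The level subgroup `Γ_g(2,4)` of `Sp(2g, ℤ)`: the matrices `γ = (a b; c d)` congruent to the
identity modulo 2 for which the diagonals of `a^t b` and `c^t d` vanish modulo 4. -/
def Gamma24 (g : ℕ) : Set (Matrix (Fin g ⊕ Fin g) (Fin g ⊕ Fin g) ℤ) :=
  {γ | γ ∈ Matrix.symplecticGroup (Fin g) ℤ ∧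
    (∀ i j, (2 : ℤ) ∣ γ i j - (1 : Matrix (Fin g ⊕ Fin g) (Fin g ⊕ Fin g) ℤ) i j) ∧
    (∀ i, (4 : ℤ) ∣ (γ.toBlocks₁₁ᵀ * γ.toBlocks₁₂) i i) ∧
    (∀ i, (4 : ℤ) ∣ (γ.toBlocks₂₁ᵀ * γ.toBlocks₂₂) i i)}

/-- The action `γ τ = (a τ + b) (c τ + d)⁻¹`. -/
noncomputable def act {g : ℕ} (γ : Matrix (Fin g ⊕ Fin g) (Fin g ⊕ Fin g) ℤ)
    (τ : Matrix (Fin g) (Fin g) ℂ) : Matrix (Fin g) (Fin g) ℂ :=
  (γ.toBlocks₁₁.map (Int.cast : ℤ → ℂ) * τ + γ.toBlocks₁₂.map (Int.cast : ℤ → ℂ)) *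
    (γ.toBlocks₂₁.map (Int.cast : ℤ → ℂ) * τ + γ.toBlocks₂₂.map (Int.cast : ℤ → ℂ))⁻¹

/-- `τ` and `τ'` have the same image `[Θ[ε](τ)]_ε` in the projective space of dimension
`2^g - 1`. -/
def SameImage {g : ℕ} (τ τ' : Matrix (Fin g) (Fin g) ℂ) : Prop :=
  ∃ (h : secondOrder τ ≠ 0) (h' : secondOrder τ' ≠ 0),
    Projectivization.mk ℂ (secondOrder τ) h = Projectivization.mk ℂ (secondOrder τ') h'

theorem secondOrder_eq {g : ℕ} (s : Fin g → ℂ) (hs : ∀ i, 0 < (s i).im)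
    (U : Matrix (Fin g) (Fin g) ℤ) (e : Fin g → Fin 2) :
    secondOrder (N139.Th.tmat s U) e =
    cexp (π * I / 2 * ((∑ i, ∑ j, ((e i).val : ℤ) * U i j * ((e j).val : ℤ) : ℤ) : ℂ)) *
      ∏ i, N139.Th.phi (s i) ((e i).val : ℤ)
        (N139.Th.lin U (fun i => ((e i).val : ℤ)) i) := by
  have h := N139.Th.tmat_theta s hs U (fun i => ((e i).val : ℤ))
  rw [← h, secondOrder, theta]
  refine tsum_congr fun n => ?_
  congr 1
  simp only [dotProduct, mulVec, Pi.zero_apply, Matrix.smul_apply, smul_eq_mul,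
    Complex.ofReal_zero, add_zero, mul_zero, Finset.mul_sum]
  refine Finset.sum_congr rfl fun i _ => Finset.sum_congr rfl fun j _ => ?_
  push_cast
  ring

theorem mod_one {g : ℕ} (M : Matrix (Fin g) (Fin g) ℤ)
    (h : ∀ i j, (2 : ℤ) ∣ M i j - (1 : Matrix (Fin g) (Fin g) ℤ) i j) :
    ∃ a1 : Matrix (Fin g) (Fin g) ℤ, M = 1 + (2 : ℤ) • a1 := by
  choose f hf using h
  refine ⟨Matrix.of f, ?_⟩
  ext i j
  rw [Matrix.add_apply, Matrix.smul_apply, Matrix.of_apply, smul_eq_mul, ← hf]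
  ring

theorem mod_zero {g : ℕ} (M : Matrix (Fin g) (Fin g) ℤ)
    (h : ∀ i j, (2 : ℤ) ∣ M i j) :
    ∃ a1 : Matrix (Fin g) (Fin g) ℤ, M = (2 : ℤ) • a1 := by
  choose f hf using h
  refine ⟨Matrix.of f, ?_⟩
  ext i j
  rw [Matrix.smul_apply, Matrix.of_apply, smul_eq_mul, ← hf]

theorem ne_zero_vec (m : ℕ) :
    secondOrder (N139.Th.tmat (N139.Th.sT m) (N139.Th.UT m)) ≠ 0 := by
  intro h0
  have h1 := congrFun h0 (fun _ => 0)
  rw [secondOrder_eq _ N139.Th.sT_im] at h1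
  revert h1
  refine mul_ne_zero (Complex.exp_ne_zero _) (Finset.prod_ne_zero_iff.2 fun i _ => ?_)
  have hl : N139.Th.lin (N139.Th.UT m) (fun _ => (((0 : Fin 2).val : ℕ) : ℤ)) i = 0 := by
    simp [N139.Th.lin]
  rw [hl, N139.Th.phi_eq]
  refine mul_ne_zero (Complex.exp_ne_zero _) ?_
  have hz : (N139.Th.sT m i * ((((0 : Fin 2).val : ℕ) : ℤ) : ℂ) + ((0 : ℤ) : ℂ)) / 2 = 0 := by
    simp
  rw [hz]
  refine N139.Th.jt0_ne _ ?_
  refine Fin.addCases (fun i => ?_) (fun i => ?_) i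
  · simp [N139.Th.sT, N139.Th.rho]
  · simp [N139.Th.sT, N139.Th.rho]

theorem equal_vec (m : ℕ) :
    secondOrder (N139.Th.tmat (N139.Th.sT m) (N139.Th.UT m)) =
      secondOrder (N139.Th.tmat (N139.Th.sT' m) (-N139.Th.UT m)) := by
  funext e
  rw [secondOrder_eq _ N139.Th.sT_im, secondOrder_eq _ N139.Th.sT'_im]
  exact N139.Th.theta_equal e

theorem not_act (m : ℕ) (γ : Matrix (Fin (6 + m) ⊕ Fin (6 + m)) (Fin (6 + m) ⊕ Fin (6 + m)) ℤ)
    (hmod : ∀ i j, (2 : ℤ) ∣ γ i j -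
      (1 : Matrix (Fin (6 + m) ⊕ Fin (6 + m)) (Fin (6 + m) ⊕ Fin (6 + m)) ℤ) i j) :
    act γ (N139.Th.tmat (N139.Th.sT m) (N139.Th.UT m)) ≠
      N139.Th.tmat (N139.Th.sT' m) (-N139.Th.UT m) := by
  intro hact
  obtain ⟨a1, ha1⟩ := mod_one γ.toBlocks₁₁ (fun i j => by
    have h := hmod (Sum.inl i) (Sum.inl j)
    rw [Matrix.one_apply] at h ⊢
    simpa [Matrix.toBlocks₁₁] using h)
  obtain ⟨b1, hb1⟩ := mod_zero γ.toBlocks₁₂ (fun i j => by
    have h := hmod (Sum.inl i) (Sum.inr j)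
    rw [Matrix.one_apply] at h
    simpa [Matrix.toBlocks₁₂] using h)
  obtain ⟨c1, hc1⟩ := mod_zero γ.toBlocks₂₁ (fun i j => by
    have h := hmod (Sum.inr i) (Sum.inl j)
    rw [Matrix.one_apply] at h
    simpa [Matrix.toBlocks₂₁] using h)
  refine N139.Th.not_equiv m _ _ _ γ.toBlocks₂₂ ?_ a1 b1 c1 ha1 hb1 hc1
  rw [act] at hact
  have hpos := N139.Th.tmat_posDef (N139.Th.sT' m) N139.Th.sT'_im (-N139.Th.UT m)
  by_cases hu : IsUnit (γ.toBlocks₂₁.map (Int.cast : ℤ → ℂ) *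
      N139.Th.tmat (N139.Th.sT m) (N139.Th.UT m) + γ.toBlocks₂₂.map (Int.cast : ℤ → ℂ)).det
  · rw [← hact, Matrix.nonsing_inv_mul_cancel_right _ _ hu]
  · exfalso
    rw [Matrix.nonsing_inv_apply_not_isUnit _ hu, mul_zero] at hact
    rw [← hact] at hpos
    have h0 := hpos.diag_pos (i := Fin.castAdd m 0)
    simp at h0

/-- For every `g ≥ 6` there are two points of the Siegel space which are not equivalent under
`Γ_g(2,4)` and have the same image under the map given by the second order theta constants. -/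
theorem result : ∀ g : ℕ, 6 ≤ g → ∃ τ ∈ SiegelSpace g, ∃ τ' ∈ SiegelSpace g,
    SameImage τ τ' ∧ ∀ γ ∈ Gamma24 g, act γ τ ≠ τ' := by
  intro g hg
  obtain ⟨m, rfl⟩ := Nat.exists_eq_add_of_le hg
  refine ⟨N139.Th.tmat (N139.Th.sT m) (N139.Th.UT m),
    ⟨N139.Th.tmat_symm _ _, N139.Th.tmat_posDef _ N139.Th.sT_im _⟩,
    N139.Th.tmat (N139.Th.sT' m) (-N139.Th.UT m),
    ⟨N139.Th.tmat_symm _ _, N139.Th.tmat_posDef _ N139.Th.sT'_im _⟩, ?_,
    fun γ hγ => not_act m γ hγ.2.1⟩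
  have hne := ne_zero_vec m
  have hne' := hne
  rw [equal_vec] at hne'
  refine ⟨hne, hne', ?_⟩
  rw [Projectivization.mk_eq_mk_iff']
  exact ⟨1, by rw [one_smul, equal_vec]⟩

end Pool.Agent.Results.MP_2bf81a_ag.ThetaMapNotInjective
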